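import Mathlib

/-!
# Small families of colourings of `n` points which rainbow-colour all increasing tuples
-/

set_option autoImplicit false

namespace Pool.Agent.W2helper86.DT

open Finset

theorem good_card {r n : ℕ} (a : Fin r → Fin n) (ha : Function.Injective a) :
    r ^ n ≤ r ^ r * (univ.filter fun κ : Fin n → Fin r => ∀ c, κ (a c) = c).card := by
  classical
  set f : (Fin n → Fin r) → (Fin n → Fin r) × (Fin r → Fin r) := fun κ =>
    (fun v => if h : ∃ c, a c = v then h.choose else κ v, fun c => κ (a c)) with hf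
  have hinj : Function.Injective f := by
    intro κ κ' h
    have h1 : (fun v => if h : ∃ c, a c = v then h.choose else κ v) =
        fun v => if h : ∃ c, a c = v then h.choose else κ' v := congrArg Prod.fst h
    have h2 : (fun c => κ (a c)) = fun c => κ' (a c) := congrArg Prod.snd h
    funext v
    by_cases hv : ∃ c, a c = v
    · obtain ⟨c, rfl⟩ := hv
      exact congrFun h2 c
    · have := congrFun h1 v
      simpa only [dif_neg hv] using this
  have hc := card_le_card_of_injOn (s := univ)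
    (t := (univ.filter fun κ : Fin n → Fin r => ∀ c, κ (a c) = c) ×ˢ
      (univ : Finset (Fin r → Fin r))) f (by
      intro κ _
      have hmem : (f κ).1 ∈ univ.filter fun κ : Fin n → Fin r => ∀ c, κ (a c) = c := by
        rw [mem_filter]
        refine ⟨mem_univ _, fun c => ?_⟩
        have hex : ∃ c', a c' = a c := ⟨c, rfl⟩
        simp only [hf, dif_pos hex]
        exact ha hex.choose_spec
      exact mem_coe.2 (mem_product.2 ⟨hmem, mem_univ _⟩)) hinj.injOn
  rw [card_product, card_univ, card_univ, Fintype.card_fun, Fintype.card_fun, Fintype.card_fin,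
    Fintype.card_fin] at hc
  rw [mul_comm]
  exact hc

theorem avg {r n : ℕ} (hr : 1 ≤ r) (B : Finset (Fin r → Fin n))
    (hB : ∀ a ∈ B, Function.Injective a) : ∃ κ : Fin n → Fin r,
      B.card ≤ r ^ r * (B.filter fun a => ∀ c, κ (a c) = c).card := by
  classical
  have : Nonempty (Fin r) := ⟨⟨0, hr⟩⟩
  have h1 : ∑ κ : Fin n → Fin r, B.card ≤
      ∑ κ : Fin n → Fin r, r ^ r * (B.filter fun a => ∀ c, κ (a c) = c).card := by
    have h2 := sum_card_bipartiteAbove_eq_sum_card_bipartiteBelow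
      (s := (univ : Finset (Fin n → Fin r))) (t := B)
      (fun (κ : Fin n → Fin r) (a : Fin r → Fin n) => ∀ c, κ (a c) = c)
    simp only [bipartiteAbove, bipartiteBelow] at h2
    rw [← mul_sum, h2, mul_sum, sum_const, card_univ, Fintype.card_fun, Fintype.card_fin,
      Fintype.card_fin, smul_eq_mul]
    calc r ^ n * B.card = ∑ a ∈ B, r ^ n := by rw [sum_const, smul_eq_mul, mul_comm]
      _ ≤ _ := sum_le_sum fun a ha => good_card a (hB a ha)
  obtain ⟨κ, -, hκ⟩ := exists_le_of_sum_le univ_nonempty h1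
  exact ⟨κ, hκ⟩

theorem iter {r n : ℕ} (hr : 1 ≤ r) : ∀ (h : ℕ) (B : Finset (Fin r → Fin n)),
    (∀ a ∈ B, Function.Injective a) → ∃ κ : ℕ → Fin n → Fin r,
      (r ^ r) ^ h * (B.filter fun a => ∀ q < h, ¬ ∀ c, κ q (a c) = c).card ≤
        (r ^ r - 1) ^ h * B.card := by
  classical
  intro h
  induction h with
  | zero =>
    intro B _
    refine ⟨fun _ _ => ⟨0, hr⟩, ?_⟩
    simp
  | succ h ih =>
    intro B hB
    obtain ⟨κ₀, h0⟩ := avg hr B hB
    set B₁ := B.filter fun a => ¬ ∀ c, κ₀ (a c) = c with hB₁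
    obtain ⟨κ', h1⟩ := ih B₁ fun a ha => hB a (mem_filter.1 ha).1
    refine ⟨fun q => if q = 0 then κ₀ else κ' (q - 1), ?_⟩
    have hR : 1 ≤ r ^ r := Nat.one_le_pow _ _ hr
    have h2 : r ^ r * B₁.card ≤ (r ^ r - 1) * B.card := by
      have h3 : (B.filter fun a => ∀ c, κ₀ (a c) = c).card + B₁.card = B.card :=
        card_filter_add_card_filter_not _
      obtain ⟨R, hR'⟩ : ∃ R, r ^ r = R + 1 := ⟨r ^ r - 1, by omega⟩
      rw [hR'] at h0 ⊢
      rw [Nat.add_sub_cancel]
      have h4 : (R + 1) * B.card = (R + 1) * (B.filter fun a => ∀ c, κ₀ (a c) = c).card +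
          (R + 1) * B₁.card := by rw [← h3]; ring
      have h5 : (R + 1) * B.card = R * B.card + B.card := by ring
      omega
    have h3 : (B.filter fun a => ∀ q < h + 1, ¬ ∀ c,
        (if q = 0 then κ₀ else κ' (q - 1)) (a c) = c) =
        B₁.filter fun a => ∀ q < h, ¬ ∀ c, κ' q (a c) = c := by
      ext a
      simp only [hB₁, mem_filter, and_assoc]
      apply and_congr_right
      intro _
      constructor
      · intro H
        refine ⟨?_, fun q hq => ?_⟩
        · have := H 0 (by omega)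
          simpa using this
        · have := H (q + 1) (by omega)
          simpa using this
      · rintro ⟨H0, H1⟩ q hq
        rcases Nat.eq_zero_or_pos q with rfl | hq0
        · simpa using H0
        · have := H1 (q - 1) (by omega)
          rw [if_neg (by omega)]
          exact this
    rw [h3, pow_succ, pow_succ]
    calc (r ^ r) ^ h * r ^ r * (B₁.filter fun a => ∀ q < h, ¬ ∀ c, κ' q (a c) = c).card
        = r ^ r * ((r ^ r) ^ h * (B₁.filter fun a => ∀ q < h, ¬ ∀ c, κ' q (a c) = c).card) := by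
          ring
      _ ≤ r ^ r * ((r ^ r - 1) ^ h * B₁.card) := Nat.mul_le_mul_left _ h1
      _ = (r ^ r - 1) ^ h * (r ^ r * B₁.card) := by ring
      _ ≤ (r ^ r - 1) ^ h * ((r ^ r - 1) * B.card) := Nat.mul_le_mul_left _ h2
      _ = _ := by ring

theorem bern (t : ℕ) : ∀ k : ℕ, t ^ k * (t + k) ≤ t * (t + 1) ^ k := by
  intro k
  induction k with
  | zero => simp
  | succ k ih =>
    calc t ^ (k + 1) * (t + (k + 1)) ≤ (t ^ k * (t + k)) * (t + 1) := by
          rw [pow_succ]
          nlinarith [Nat.zero_le (t ^ k * k)]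
      _ ≤ (t * (t + 1) ^ k) * (t + 1) := Nat.mul_le_mul_right _ ih
      _ = t * (t + 1) ^ (k + 1) := by ring

theorem two_mul_pow (t : ℕ) : 2 * t ^ (t + 1) ≤ (t + 1) ^ (t + 1) := by
  rcases Nat.eq_zero_or_pos t with rfl | ht
  · simp
  · apply Nat.le_of_mul_le_mul_left _ ht
    calc t * (2 * t ^ (t + 1)) ≤ t ^ (t + 1) * (t + (t + 1)) := by nlinarith [Nat.zero_le (t ^ (t + 1))]
      _ ≤ _ := bern t (t + 1)

theorem hash {r n : ℕ} (hr : 1 ≤ r) : ∃ κ : ℕ → Fin n → Fin r, ∀ a : Fin r → Fin n,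
    StrictMono a → ∃ q < r ^ (r + 1) * (Nat.log 2 n + 1), ∀ c, κ q (a c) = c := by
  classical
  set h := r ^ (r + 1) * (Nat.log 2 n + 1) with hh
  set B : Finset (Fin r → Fin n) := univ.filter fun a => StrictMono a with hB
  obtain ⟨κ, hκ⟩ := iter hr h B fun a ha => (mem_filter.1 ha).2.injective
  refine ⟨κ, fun a ha => ?_⟩
  by_contra hcon
  push Not at hcon
  have hmem : a ∈ B.filter fun a => ∀ q < h, ¬ ∀ c, κ q (a c) = c := by
    rw [mem_filter]
    refine ⟨mem_filter.2 ⟨mem_univ _, ha⟩, fun q hq hc => ?_⟩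
    obtain ⟨c, hc'⟩ := hcon q hq
    exact hc' (hc c)
  have h1 : 1 ≤ (B.filter fun a => ∀ q < h, ¬ ∀ c, κ q (a c) = c).card := card_pos.2 ⟨a, hmem⟩
  have hBc : B.card ≤ n ^ r := by
    refine (card_le_univ _).trans ?_
    rw [Fintype.card_fun, Fintype.card_fin, Fintype.card_fin]
  have h2 : (r ^ r) ^ h ≤ (r ^ r - 1) ^ h * n ^ r := by
    calc (r ^ r) ^ h = (r ^ r) ^ h * 1 := by ring
      _ ≤ (r ^ r) ^ h * (B.filter fun a => ∀ q < h, ¬ ∀ c, κ q (a c) = c).card :=
          Nat.mul_le_mul_left _ h1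
      _ ≤ (r ^ r - 1) ^ h * B.card := hκ
      _ ≤ _ := Nat.mul_le_mul_left _ hBc
  obtain ⟨t, ht⟩ : ∃ t, r ^ r = t + 1 := ⟨r ^ r - 1, by have := Nat.one_le_pow r r hr; omega⟩
  set y := r * (Nat.log 2 n + 1) with hy
  have hhy : h = (t + 1) * y := by
    rw [hh, hy, ← ht, pow_succ]
    ring
  have e1 : (t + 1) ^ h = ((t + 1) ^ (t + 1)) ^ y := by rw [hhy, pow_mul]
  have e2 : t ^ h = (t ^ (t + 1)) ^ y := by rw [hhy, pow_mul]
  rw [ht, Nat.add_sub_cancel, e1, e2] at h2
  have h3 : n ^ r < 2 ^ y := by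
    have h4 : n < 2 ^ (Nat.log 2 n + 1) := Nat.lt_pow_succ_log_self (by norm_num) n
    calc n ^ r < (2 ^ (Nat.log 2 n + 1)) ^ r := Nat.pow_lt_pow_left h4 (by omega)
      _ = 2 ^ y := by rw [← pow_mul, hy, mul_comm]
  have h4 : 2 ^ y * (t ^ (t + 1)) ^ y ≤ ((t + 1) ^ (t + 1)) ^ y := by
    rw [← mul_pow]
    exact Nat.pow_le_pow_left (two_mul_pow t) y
  have h5 : 0 < ((t + 1) ^ (t + 1)) ^ y := by positivity
  have h6 : ((t + 1) ^ (t + 1)) ^ y ≤ (t ^ (t + 1)) ^ y * n ^ r := h2
  rcases Nat.eq_zero_or_pos ((t ^ (t + 1)) ^ y) with h0 | h0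
  · rw [h0, zero_mul] at h6
    omega
  · have h7 : (t ^ (t + 1)) ^ y * n ^ r < (t ^ (t + 1)) ^ y * 2 ^ y :=
      Nat.mul_lt_mul_of_pos_left h3 h0
    rw [mul_comm (2 ^ y)] at h4
    omega

end Pool.Agent.W2helper86.DT
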