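import Pool.Agent.W2helper86.DT.Settle
import Pool.Agent.W2helper86.DT.Hash

/-!
# The homogeneous set
-/

set_option autoImplicit false

namespace Pool.Agent.W2helper86.DT

open Finset

variable {r : ℕ}

theorem exists_top (F : Finset ℕ) (k : ℕ) (hk : k ≤ F.card) : ∃ P : ℕ → ℕ,
    (∀ e < k, P e ∈ F) ∧ (∀ e e', e < e' → e' < k → P e < P e') ∧
      ∀ i ∈ F, (∀ e < k, P e ≠ i) → ∀ e < k, i < P e := by
  classical
  set f := F.card with hf
  set emb := F.orderEmbOfFin (rfl : F.card = F.card) with hemb
  set P : ℕ → ℕ := fun e => if h : f - k + e < f then emb ⟨f - k + e, h⟩ else 0 with hP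
  have hPe : ∀ e (he : e < k), P e = emb ⟨f - k + e, by omega⟩ := by
    intro e he
    simp only [hP]
    rw [dif_pos]
  refine ⟨P, ?_, ?_, ?_⟩
  · intro e he
    rw [hPe e he]
    exact orderEmbOfFin_mem _ _ _
  · intro e e' h1 h2
    rw [hPe e (by omega), hPe e' h2]
    apply emb.strictMono
    rw [Fin.mk_lt_mk]
    omega
  · intro i hi hne e he
    have hr : i ∈ Set.range emb := by
      rw [hemb, range_orderEmbOfFin]
      exact_mod_cast hi
    obtain ⟨⟨t, ht⟩, rfl⟩ := hr
    have h1 : t < f - k := by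
      by_contra h2
      apply hne (t - (f - k)) (by omega)
      rw [hPe _ (by omega)]
      congr 1
      rw [Fin.mk.injEq]
      omega
    rw [hPe e he]
    apply emb.strictMono
    rw [Fin.mk_lt_mk]
    omega

/-- There are no contradictory literals in the term. -/
def Consistent (T : Finset (Literal r)) : Prop :=
  ∀ (c : Fin r) (i : ℕ), (c, i, true) ∈ T → (c, i, false) ∉ T

theorem mem_positions {T : Finset (Literal r)} {c : Fin r} {i : ℕ} {β : Bool}
    (h : (c, i, β) ∈ T) : i ∈ positions T := mem_image.2 ⟨_, h, rfl⟩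

theorem assemble {l n m k₀ h Q W : ℕ} (D : Fin l → Finset (Finset (Literal r)))
    (hcons : ∀ k, ∀ T ∈ D k, Consistent T) (F : Finset ℕ) (hF : F ⊆ range m) (b : ℕ → Bool)
    (hb : ∀ i, m ≤ i → b i = false) (hn : n ≤ 2 ^ k₀) (hk : k₀ ≤ F.card)
    (κ : ℕ → Fin n → Fin r)
    (hκ : ∀ a : Fin r → Fin n, StrictMono a → ∃ q < h, ∀ c, κ q (a c) = c)
    (hQ : k₀ + h + (l - 1) * (h * W) ≤ Q)
    (hW : ∀ k, ∀ T ∈ D k, Alive F b T → (free F T).card ≤ W)
    (hset : ∀ k, Settled Q F b (D k)) :
    ∃ v : Fin n → ℕ, StrictMono v ∧ (∀ t, v t < 2 ^ m) ∧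
      ∀ a : Fin r → Fin n, StrictMono a → ∀ k,
        ((∃ T ∈ D k, TermTrue (fun c => v (a c)) T) ↔ ∃ T ∈ D k, Alive F b T) := by
  classical
  obtain ⟨P, hP1, hP2, hP3⟩ := exists_top F k₀ hk
  set K := (range k₀).image P with hK
  have hKc : K.card ≤ k₀ := card_image_le.trans (card_range k₀).le
  set act : Finset (Fin l) := univ.filter fun k =>
    (¬ ∃ T ∈ D k, Alive F b T ∧ free F T = ∅) ∧ ¬ ∀ T ∈ D k, ¬ Alive F b T with hact
  obtain ⟨T, hT1, hT2⟩ := choose_terms D b F K hKc hQ hW act (by
    intro k hk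
    obtain ⟨-, h1, h2⟩ := mem_filter.1 hk
    rcases hset k with h3 | h3 | h3
    · exact absurd h3 h1
    · exact absurd h3 h2
    · exact h3)
  -- the digits of the vertices
  set val : Fin n → ℕ → Bool := fun t i =>
    if i ∈ F then
      if i ∈ K then decide (∃ e < k₀, P e = i ∧ (t : ℕ).testBit e = true)
      else decide (∃ k ∈ act, ∃ q < h, (κ q t, i, true) ∈ T k q)
    else b i with hval
  have hPinj : ∀ e < k₀, ∀ e' < k₀, P e = P e' → e = e' := by
    intro e he e' he' h1
    rcases lt_trichotomy e e' with h2 | h2 | h2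
    · exact absurd h1 (hP2 e e' h2 he').ne
    · exact h2
    · exact absurd h1 (hP2 e' e h2 he).ne'
  have hvalP : ∀ t e, e < k₀ → val t (P e) = (t : ℕ).testBit e := by
    intro t e he
    have hmK : P e ∈ K := mem_image_of_mem _ (mem_range.2 he)
    simp only [hval, if_pos (hP1 e he), if_pos hmK]
    rcases hb' : (t : ℕ).testBit e with _ | _
    · rw [decide_eq_false_iff_not]
      rintro ⟨e', he', h1, h2⟩
      rw [hPinj e' he' e he h1, hb'] at h2
      exact Bool.false_ne_true h2
    · rw [decide_eq_true_iff]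
      exact ⟨e, he, rfl, hb'⟩
  have hvalb : ∀ t i, i ∉ F → val t i = b i := by
    intro t i hi
    simp only [hval, if_neg hi]
  have hvalT : ∀ k ∈ act, ∀ q < h, ∀ t i β, i ∈ F → (κ q t, i, β) ∈ T k q → val t i = β := by
    intro k hk q hq t i β hi hmem
    have hiT : i ∈ free F (T k q) := mem_inter.2 ⟨mem_positions hmem, hi⟩
    have hiK : i ∉ K := by
      intro hiK
      exact disjoint_left.1 (hT1 k hk q hq).2.2 hiT hiK
    simp only [hval, if_pos hi, if_neg hiK]
    cases β with
    | true =>
      rw [decide_eq_true_iff]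
      exact ⟨k, hk, q, hq, hmem⟩
    | false =>
      rw [decide_eq_false_iff_not]
      rintro ⟨k', hk', q', hq', hmem'⟩
      by_cases heq : (k, q) = (k', q')
      · rw [Prod.mk.injEq] at heq
        obtain ⟨rfl, rfl⟩ := heq
        exact hcons k _ (hT1 k hk q hq).1 _ _ hmem' hmem
      · exact disjoint_left.1 (hT2 k hk k' hk' q hq q' hq' heq) hiT
          (mem_inter.2 ⟨mem_positions hmem', hi⟩)
  set v : Fin n → ℕ := fun t => Nat.ofBits fun i : Fin m => val t i with hv
  have hvm : ∀ t, v t < 2 ^ m := fun t => Nat.ofBits_lt_two_pow _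
  have hvb : ∀ t i, (v t).testBit i = val t i := by
    intro t i
    rcases Nat.lt_or_ge i m with hi | hi
    · simp only [hv]
      rw [Nat.testBit_ofBits_lt _ i hi]
    · simp only [hv]
      rw [Nat.testBit_ofBits_ge _ i hi, hvalb, hb i hi]
      intro h1
      have := mem_range.1 (hF h1)
      omega
  refine ⟨v, ?_, hvm, ?_⟩
  · intro t t' htt
    have htt' : (t : ℕ) < t' := htt
    have hne : (t : ℕ) ^^^ t' ≠ 0 := by
      intro h1
      rw [Nat.xor_eq_zero_iff] at h1
      omega
    obtain ⟨e, he1, he2⟩ := Nat.exists_most_significant_bit hne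
    rw [Nat.testBit_xor] at he1
    have he3 : ∀ j, e < j → (t : ℕ).testBit j = (t' : ℕ).testBit j := by
      intro j hj
      have := he2 j hj
      rw [Nat.testBit_xor] at this
      revert this
      cases (t : ℕ).testBit j <;> cases (t' : ℕ).testBit j <;> simp
    have he4 : (t : ℕ).testBit e = false ∧ (t' : ℕ).testBit e = true := by
      rcases h1 : (t : ℕ).testBit e with _ | _ <;> rcases h2 : (t' : ℕ).testBit e with _ | _
      · rw [h1, h2] at he1; simp at he1
      · exact ⟨rfl, rfl⟩
      · have := Nat.lt_of_testBit e h2 h1 fun j hj => (he3 j hj).symm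
        omega
      · rw [h1, h2] at he1; simp at he1
    have hek : e < k₀ := by
      by_contra hcon
      have h1 : (t' : ℕ) < 2 ^ e := (lt_of_lt_of_le t'.2 hn).trans_le
        (Nat.pow_le_pow_right (by norm_num) (not_lt.1 hcon))
      rw [Nat.testBit_lt_two_pow h1] at he4
      exact Bool.false_ne_true he4.2
    apply Nat.lt_of_testBit (P e)
    · rw [hvb, hvalP _ _ hek, he4.1]
    · rw [hvb, hvalP _ _ hek, he4.2]
    · intro j hj
      rw [hvb, hvb]
      by_cases hjF : j ∈ F
      · by_cases hjK : ∀ e' < k₀, P e' ≠ j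
        · have := hP3 j hjF hjK e hek
          omega
        · push Not at hjK
          obtain ⟨e', he', rfl⟩ := hjK
          rw [hvalP _ _ he', hvalP _ _ he']
          apply he3
          by_contra hcon
          rcases Nat.lt_or_eq_of_le (not_lt.1 hcon) with h1 | h1
          · have := hP2 e' e h1 hek
            omega
          · rw [h1] at hj
            omega
      · rw [hvalb _ _ hjF, hvalb _ _ hjF]
  · intro a ha k
    constructor
    · rintro ⟨T', hT', hTt⟩
      refine ⟨T', hT', fun p hp hpF => ?_⟩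
      have := hTt p hp
      unfold LitTrue at this
      rw [hvb, hvalb _ _ hpF] at this
      exact this
    · rintro ⟨T₀, hT₀, hTa⟩
      by_cases htr : ∃ T ∈ D k, Alive F b T ∧ free F T = ∅
      · obtain ⟨T', hT', hTa', hTf⟩ := htr
        refine ⟨T', hT', fun p hp => ?_⟩
        have hpF : p.2.1 ∉ F := by
          intro hpF
          have : p.2.1 ∈ free F T' := mem_inter.2 ⟨mem_image_of_mem _ hp, hpF⟩
          rw [hTf] at this
          exact notMem_empty _ this
        unfold LitTrue
        rw [hvb, hvalb _ _ hpF]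
        exact hTa' p hp hpF
      · have hk' : k ∈ act := by
          rw [hact, mem_filter]
          exact ⟨mem_univ _, htr, fun h1 => h1 T₀ hT₀ hTa⟩
        obtain ⟨q, hq, hqc⟩ := hκ a ha
        refine ⟨T k q, (hT1 k hk' q hq).1, fun p hp => ?_⟩
        unfold LitTrue
        rw [hvb]
        by_cases hpF : p.2.1 ∈ F
        · apply hvalT k hk' q hq _ _ _ hpF
          rw [hqc]
          exact hp
        · rw [hvalb _ _ hpF]
          exact (hT1 k hk' q hq).2.1 p hp hpF

end Pool.Agent.W2helper86.DT
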