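import Pool.Agent.W2helper86.DT.Hd

/-!
# Functions of the highest differing digits of neighbours are computed in depth three
-/

set_option autoImplicit false

namespace Pool.Agent.W2helper86.DT

open Finset
open Pool.Agent.N584.TI

variable {k : ℕ}

/-- A clause with two literals. -/
def clause (v : Fin k → ℕ) (p : Fin k × ℕ × Bool) : Finset (Literal (k + 1)) :=
  {(p.1.castSucc, p.2.1, p.2.2), (p.1.succ, p.2.1, if p.2.1 = v p.1 then p.2.2 else !p.2.2)}

/-- The clauses which say that the highest differing digits of neighbours are `v`. -/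
def cnf (m : ℕ) (v : Fin k → ℕ) : Finset (Finset (Literal (k + 1))) :=
  ((univ ×ˢ (range m ×ˢ univ)).filter fun p : Fin k × ℕ × Bool => v p.1 ≤ p.2.1).image (clause v)

theorem cnf_card (m : ℕ) (v : Fin k → ℕ) : (cnf m v).card ≤ 2 * (k + 1) * m := by
  unfold cnf
  refine card_image_le.trans ((card_filter_le _ _).trans ?_)
  rw [card_product, card_product, card_univ, card_univ, Fintype.card_fin, card_range,
    Fintype.card_bool]
  nlinarith [Nat.zero_le m]

theorem clause_card (v : Fin k → ℕ) (p : Fin k × ℕ × Bool) : (clause v p).card ≤ 2 := by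
  unfold clause
  exact card_le_two

theorem clauseTrue_iff (v : Fin k → ℕ) (p : Fin k × ℕ × Bool) (x : Fin (k + 1) → ℕ) :
    ClauseTrue x (clause v p) ↔ (x p.1.castSucc).testBit p.2.1 = p.2.2 ∨
      (x p.1.succ).testBit p.2.1 = if p.2.1 = v p.1 then p.2.2 else !p.2.2 := by
  unfold ClauseTrue clause
  constructor
  · rintro ⟨q, hq, h⟩
    rw [mem_insert, mem_singleton] at hq
    rcases hq with rfl | rfl
    · left; exact h
    · right; exact h
  · rintro (h | h)
    · exact ⟨_, mem_insert_self _ _, h⟩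
    · exact ⟨_, mem_insert_of_mem (mem_singleton_self _), h⟩

theorem cnf_true {m : ℕ} {v : Fin k → ℕ} (hv : ∀ t, v t < m) {x : Fin (k + 1) → ℕ}
    (hx : StrictMono x) (hxm : ∀ i, x i < 2 ^ m) :
    (∀ C ∈ cnf m v, ClauseTrue x C) ↔ hdv x = v := by
  have hlt : ∀ t : Fin k, x t.castSucc < x t.succ := fun t => hx (Fin.castSucc_lt_succ)
  constructor
  · intro h
    have key : ∀ (t : Fin k) (i : ℕ) (β : Bool), i < m → v t ≤ i →
        (x t.castSucc).testBit i = β ∨
          (x t.succ).testBit i = if i = v t then β else !β := by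
      intro t i β hi hvi
      have h1 : clause v (t, i, β) ∈ cnf m v := by
        unfold cnf
        refine mem_image_of_mem _ (mem_filter.2 ⟨?_, hvi⟩)
        simp [hi]
      exact (clauseTrue_iff v (t, i, β) x).1 (h _ h1)
    funext t
    apply hd_eq
    · have h1 := key t (v t) true (hv t) le_rfl
      have h2 := key t (v t) false (hv t) le_rfl
      rw [if_pos rfl] at h1 h2
      revert h1 h2
      cases (x t.castSucc).testBit (v t) <;> cases (x t.succ).testBit (v t) <;> simp
    · intro j hj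
      rcases Nat.lt_or_ge j m with hjm | hjm
      · have h1 := key t j true hjm hj.le
        have h2 := key t j false hjm hj.le
        rw [if_neg hj.ne'] at h1 h2
        revert h1 h2
        cases (x t.castSucc).testBit j <;> cases (x t.succ).testBit j <;> simp
      · have h1 : ∀ i, (x i).testBit j = false := fun i =>
          Nat.testBit_lt_two_pow ((hxm i).trans_le (Nat.pow_le_pow_right (by norm_num) hjm))
        rw [h1, h1]
  · rintro rfl C hC
    unfold cnf at hC
    obtain ⟨⟨t, i, β⟩, hp, rfl⟩ := mem_image.1 hC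
    obtain ⟨-, hp2⟩ := mem_filter.1 hp
    rw [clauseTrue_iff]
    simp only at hp2 ⊢
    obtain ⟨s1, s2, s3⟩ := hd_spec (hlt t)
    rcases eq_or_ne i (hdv x t) with rfl | hne
    · rw [if_pos rfl]
      have e1 : (x t.castSucc).testBit (hdv x t) = false := s1
      have e2 : (x t.succ).testBit (hdv x t) = true := s2
      rw [e1, e2]
      cases β <;> simp
    · rw [if_neg hne]
      have e1 := s3 i (lt_of_le_of_ne hp2 hne.symm)
      rw [e1]
      cases (x t.succ).testBit i <;> cases β <;> simp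

theorem hdv_lt {m : ℕ} {x : Fin (k + 1) → ℕ} (hx : StrictMono x) (hxm : ∀ i, x i < 2 ^ m)
    (t : Fin k) : hdv x t < m := hd_lt (hx Fin.castSucc_lt_succ) (hxm _)

/-- A property of the vector of the highest differing digits is a disjunction of such
conjunctions of clauses. -/
theorem or_cnf (k m : ℕ) (Φ : (Fin k → ℕ) → Prop) :
    ∃ D : Finset (Finset (Finset (Literal (k + 1)))),
      (D.card ≤ m ^ k ∧ ∀ E ∈ D, E.card ≤ 2 * (k + 1) * m ∧ ∀ C ∈ E, C.card ≤ 2) ∧
      ∀ x : Fin (k + 1) → ℕ, StrictMono x → (∀ i, x i < 2 ^ m) →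
        ((∃ E ∈ D, ∀ C ∈ E, ClauseTrue x C) ↔ Φ (hdv x)) := by
  classical
  refine ⟨((univ : Finset (Fin k → Fin m)).filter fun v => Φ fun t => v t).image
    fun v => cnf m fun t => v t, ⟨?_, ?_⟩, ?_⟩
  · refine card_image_le.trans ((card_filter_le _ _).trans ?_)
    rw [card_univ, Fintype.card_fun, Fintype.card_fin, Fintype.card_fin]
  · intro E hE
    obtain ⟨v, -, rfl⟩ := mem_image.1 hE
    refine ⟨cnf_card m _, ?_⟩
    intro C hC
    unfold cnf at hC
    obtain ⟨p, -, rfl⟩ := mem_image.1 hC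
    exact clause_card _ p
  · intro x hx hxm
    constructor
    · rintro ⟨E, hE, hEx⟩
      obtain ⟨v, hv, rfl⟩ := mem_image.1 hE
      rw [cnf_true (fun t => (v t).2) hx hxm] at hEx
      rw [hEx]
      exact (mem_filter.1 hv).2
    · intro h
      set v : Fin k → Fin m := fun t => ⟨hdv x t, hdv_lt hx hxm t⟩ with hv
      have e : (fun t => ((v t : Fin m) : ℕ)) = hdv x := rfl
      refine ⟨cnf m fun t => v t, mem_image.2 ⟨v, mem_filter.2 ⟨mem_univ _, ?_⟩, rfl⟩, ?_⟩
      · rw [e]; exact h
      · rw [cnf_true (fun t => (v t).2) hx hxm, e]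

/-- The truth value of a proposition. -/
noncomputable def toB (p : Prop) : Bool := @decide p (Classical.propDecidable p)

theorem eq_toB {p : Prop} {b : Bool} (h : p ↔ b = true) : b = toB p := by
  have h1 : toB p = true ↔ p := @decide_eq_true_iff p (Classical.propDecidable p)
  rw [← h1] at h
  rcases hb : b with _ | _
  · rcases ht : toB p with _ | _
    · rfl
    · rw [hb] at h
      exact absurd (h.1 ht) (by simp)
  · exact (h.2 hb).symm

theorem transfer {k : ℕ} {α : Type} {F : (Fin (k + 1) → ℕ) → α} (f : α → Bool)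
    (hF : ∀ x y : Fin (k + 1) → ℕ, StrictMono x → StrictMono y → hdv x = hdv y → F x = F y)
    {x : Fin (k + 1) → ℕ} (hx : StrictMono x) :
    (∃ y : Fin (k + 1) → ℕ, StrictMono y ∧ hdv y = hdv x ∧ f (F y) = true) ↔
      f (F x) = true := by
  constructor
  · rintro ⟨y, hy, hyx, hFy⟩
    rw [← hF y x hy hx hyx]
    exact hFy
  · intro h
    exact ⟨x, hx, rfl, h⟩

/-- Colourings with two colours. -/
theorem depthThree_bool {N : ℕ} (F : (Fin (k + 1) → ℕ) → Bool)
    (hF : ∀ x y : Fin (k + 1) → ℕ, StrictMono x → StrictMono y → hdv x = hdv y → F x = F y)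
    (c : Finset ℕ → Bool) (hc : ∀ x : Fin (k + 1) → ℕ, StrictMono x → c (univ.image x) = F x) :
    DepthThree 1 (k + 1) N c := by
  obtain ⟨D, hD, hDx⟩ := or_cnf k (Nat.clog 2 N)
    fun v => ∃ x : Fin (k + 1) → ℕ, StrictMono x ∧ hdv x = v ∧ id (F x) = true
  refine ⟨fun _ => D, fun P => toB (P 0), fun _ => ?_, ?_⟩
  · rw [Nat.add_sub_cancel]
    exact hD
  · intro x hx hxN
    have hxm : ∀ i, x i < 2 ^ Nat.clog 2 N := fun i =>
      (hxN i).trans_le (Nat.le_pow_clog (by norm_num) N)
    rw [hc x hx]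
    exact eq_toB ((hDx x hx hxm).trans (transfer id hF hx))

/-- Colourings with four colours. -/
theorem depthThree_bool2 {N : ℕ} (F : (Fin (k + 1) → ℕ) → Bool × Bool)
    (hF : ∀ x y : Fin (k + 1) → ℕ, StrictMono x → StrictMono y → hdv x = hdv y → F x = F y)
    (c : Finset ℕ → Bool × Bool)
    (hc : ∀ x : Fin (k + 1) → ℕ, StrictMono x → c (univ.image x) = F x) :
    DepthThree 2 (k + 1) N c := by
  obtain ⟨D₁, hD₁, hDx₁⟩ := or_cnf k (Nat.clog 2 N)
    fun v => ∃ x : Fin (k + 1) → ℕ, StrictMono x ∧ hdv x = v ∧ Prod.fst (F x) = true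
  obtain ⟨D₂, hD₂, hDx₂⟩ := or_cnf k (Nat.clog 2 N)
    fun v => ∃ x : Fin (k + 1) → ℕ, StrictMono x ∧ hdv x = v ∧ Prod.snd (F x) = true
  refine ⟨![D₁, D₂], fun P => (toB (P 0), toB (P 1)), fun i => ?_, ?_⟩
  · rw [Nat.add_sub_cancel]
    fin_cases i
    · exact hD₁
    · exact hD₂
  · intro x hx hxN
    have hxm : ∀ i, x i < 2 ^ Nat.clog 2 N := fun i =>
      (hxN i).trans_le (Nat.le_pow_clog (by norm_num) N)
    rw [hc x hx]
    exact Prod.ext (eq_toB ((hDx₁ x hx hxm).trans (transfer Prod.fst hF hx)))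
      (eq_toB ((hDx₂ x hx hxm).trans (transfer Prod.snd hF hx)))

end Pool.Agent.W2helper86.DT
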