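import Mathlib

/-!
# Colourings computed by circuits of depth two and three in the digits of the vertices
-/

set_option autoImplicit false

namespace Pool.Agent.W2helper86.DT

open Finset

/-- `(j, i, b)` stands for the condition that the `i`-th binary digit of the `j`-th vertex is `b`. -/
abbrev Literal (r : ℕ) := Fin r × ℕ × Bool

/-- The literal is true at the tuple `x` of vertices. -/
def LitTrue {r : ℕ} (x : Fin r → ℕ) (p : Literal r) : Prop := (x p.1).testBit p.2.1 = p.2.2

/-- A term (conjunction of literals) is true at `x`. -/
def TermTrue {r : ℕ} (x : Fin r → ℕ) (T : Finset (Literal r)) : Prop := ∀ p ∈ T, LitTrue x p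

/-- A clause (disjunction of literals) is true at `x`. -/
def ClauseTrue {r : ℕ} (x : Fin r → ℕ) (C : Finset (Literal r)) : Prop := ∃ p ∈ C, LitTrue x p

/-- The positions of the digits which occur in a term. -/
def positions {r : ℕ} (T : Finset (Literal r)) : Finset ℕ := T.image fun p => p.2.1

/-- The colour of an `r`-subset of `{0, …, N - 1}` is a function of the truth values of `l`
disjunctions of terms. In each of these disjunctions there are at most `s` terms in which more than
`w` positions of digits occur. -/
def DepthTwo {κ : Type*} (l s w : ℕ) (r N : ℕ) (c : Finset ℕ → κ) : Prop :=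
  ∃ (D : Fin l → Finset (Finset (Literal r))) (g : (Fin l → Prop) → κ),
    (∀ k, ((D k).filter fun T => w < (positions T).card).card ≤ s) ∧
    ∀ x : Fin r → ℕ, StrictMono x → (∀ i, x i < N) →
      c (univ.image x) = g fun k => ∃ T ∈ D k, TermTrue x T

/-- The colour of an `r`-subset of `{0, …, N - 1}` is a function of the truth values of `l`
disjunctions of conjunctions of clauses with at most two literals. If `m = ⌈log₂ N⌉` then each
disjunction is one of at most `m ^ (r - 1)` conjunctions and each conjunction is one of at most
`2 r m` clauses. -/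
def DepthThree {κ : Type*} (l : ℕ) (r N : ℕ) (c : Finset ℕ → κ) : Prop :=
  ∃ (D : Fin l → Finset (Finset (Finset (Literal r)))) (g : (Fin l → Prop) → κ),
    (∀ k, (D k).card ≤ Nat.clog 2 N ^ (r - 1) ∧ ∀ E ∈ D k, E.card ≤ 2 * r * Nat.clog 2 N ∧
      ∀ C ∈ E, C.card ≤ 2) ∧
    ∀ x : Fin r → ℕ, StrictMono x → (∀ i, x i < N) →
      c (univ.image x) = g fun k => ∃ E ∈ D k, ∀ C ∈ E, ClauseTrue x C

end Pool.Agent.W2helper86.DT
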