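import Pool.Agent.W2helper86.DT.Cnf

/-!
# Depth three is as hard as the general question
-/

set_option autoImplicit false

namespace Pool.Agent.W2helper86.DT

open Finset
open Pool.Agent.N584.TI

theorem stepF_hd {s : ℕ} {χ : Finset ℝ → Bool} {x y : Fin (s + 4) → ℕ} (hx : StrictMono x)
    (hy : StrictMono y) (h : hdv x = hdv y) :
    stepF ρH true false χ s x = stepF ρH true false χ s y := by
  symm
  apply stepF_congr 0
  · intro T
    simp
  · intro i j hij
    unfold ρH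
    rw [hdv_congr hx hy h i j hij, add_zero]

theorem pairF_hd {κ : Type*} {χ : Finset ℝ → κ} {x y : Fin 3 → ℕ} (hx : StrictMono x)
    (hy : StrictMono y) (h : hdv x = hdv y) : pairF ρH χ x = pairF ρH χ y := by
  symm
  apply pairF_congr
  intro i j hij
  unfold ρH
  rw [hdv_congr hx hy h i j hij]

theorem three_lower {s n m N : ℕ} (hn : 1 ≤ n) (h : ¬ Arrow (κ := Bool) AllCol (s + 3) n m)
    (hN : N ≤ 2 ^ m) : ¬ Arrow (κ := Bool) (DepthThree 1) (s + 4) (2 * n + s + 2) N := by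
  obtain ⟨c₀, hc₀⟩ := not_arrow_all h
  intro hA
  obtain ⟨S, hS, hSn, b, hb⟩ := hA
    (ofTup (s + 4) true (stepF ρH true false (lev c₀) s))
    (depthThree_bool (k := s + 3) (stepF ρH true false (lev c₀) s)
      (fun x y hx hy hxy => stepF_hd hx hy hxy) _ (fun x hx => ofTup_image hx))
  obtain ⟨Λ, hΛn, hΛ, -, hΛb⟩ := step_main (n := n) isScale_ρH (κ₀ := true) (κ₁ := false)
    (by decide) hn (S := S) (b := b) (χ := lev c₀) (s := s) (by omega) (by
      intro x hx hxS
      have := hb _ (mem_of_tuple hxS) (card_tuple hx)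
      rwa [ofTup_image hx] at this)
  refine lev_contra hc₀ hΛn ?_ hΛb
  intro l hl
  obtain ⟨x, hx, y, hy, hxy, rfl⟩ := hΛ l hl
  refine ⟨hd x y, ?_, rfl⟩
  have hy' : y < N := by simpa using hS hy
  exact hd_lt hxy (hy'.trans_le hN)

theorem three_lower_pair {n m N : ℕ} (hn : 1 ≤ n) (h : ¬ Arrow (κ := Bool) AllCol 2 n m)
    (hN : N ≤ 2 ^ m) : ¬ Arrow (κ := Bool × Bool) (DepthThree 2) 3 (n + 1) N := by
  obtain ⟨c₀, hc₀⟩ := not_arrow_all h
  intro hA
  obtain ⟨S, hS, hSn, b, hb⟩ := hA (ofTup 3 (true, true) (pairF ρH (lev c₀)))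
    (depthThree_bool2 (k := 2) (pairF ρH (lev c₀))
      (fun x y hx hy hxy => pairF_hd hx hy hxy) _ (fun x hx => ofTup_image hx))
  obtain ⟨Λ, hΛn, hΛ, -, b', hΛb⟩ := pair_main (n := n) isScale_ρH hn (S := S) (b := b)
    (χ := lev c₀) (by omega) (by
      intro x hx hxS
      have := hb _ (mem_of_tuple hxS) (card_tuple hx)
      rwa [ofTup_image hx] at this)
  refine lev_contra hc₀ hΛn ?_ hΛb
  intro l hl
  obtain ⟨x, hx, y, hy, hxy, rfl⟩ := hΛ l hl
  refine ⟨hd x y, ?_, rfl⟩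
  have hy' : y < N := by simpa using hS hy
  exact hd_lt hxy (hy'.trans_le hN)

theorem three_ineq {r n : ℕ} (hr : 3 ≤ r) (hn : 1 ≤ n) :
    2 ^ (Ram (κ := Bool) AllCol r n - 1) <
      Ram (κ := Bool) (DepthThree 1) (r + 1) (2 * n + r - 1) := by
  obtain ⟨s, rfl⟩ : ∃ s, r = s + 3 := ⟨r - 3, by omega⟩
  have h1 : n ≤ Ram (κ := Bool) AllCol (s + 3) n := le_Ram (by omega) inh_all
  by_contra hcon
  have h2 := three_lower hn (m := Ram (κ := Bool) AllCol (s + 3) n - 1) (s := s) (n := n)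
    (not_arrow_of_lt (by omega)) (not_lt.1 hcon)
  exact h2 (Ram_spec (by omega))

theorem three_ineq_pair {n : ℕ} (hn : 1 ≤ n) :
    2 ^ (Ram (κ := Bool) AllCol 2 n - 1) <
      Ram (κ := Bool × Bool) (DepthThree 2) 3 (n + 1) := by
  have h1 : n ≤ Ram (κ := Bool) AllCol 2 n := le_Ram (by omega) inh_all
  by_contra hcon
  have h2 := three_lower_pair hn (m := Ram (κ := Bool) AllCol 2 n - 1)
    (not_arrow_of_lt (by omega)) (not_lt.1 hcon)
  exact h2 (Ram_spec (by omega))

theorem inh_three {κ : Type*} [Nonempty κ] (l : ℕ) : Inh (κ := κ) (DepthThree l) := by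
  obtain ⟨κ₀⟩ := ‹Nonempty κ›
  intro r N
  exact ⟨fun _ => κ₀, fun _ => ∅, fun _ => κ₀, fun _ => ⟨by simp, by simp⟩, fun _ _ _ => rfl⟩

theorem lo_three' {e r k : ℕ} (he : 1 ≤ e) (hr : 3 ≤ r) (hk : 1 ≤ k)
    (h : Lo e k (Ram (κ := Bool) AllCol r)) :
    Lo e (k + 1) (Ram (κ := Bool) (DepthThree 1) (r + 1)) := by
  refine lo_step (a := 2) (b := r - 1) he hk (by norm_num)
    (fun n m hnm => Ram_mono (by omega) hnm) ?_ h
  intro n hn
  have := three_ineq hr hn
  rw [show 2 * n + r - 1 = 2 * n + (r - 1) by omega] at this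
  exact this.le

theorem three_iff {s : ℕ} (hs : 4 ≤ s) :
    Q1 ↔ Growth (Ram (κ := Bool) (DepthThree 1) s) (s - 1) := by
  rw [Q1_iff_three, growth_class (inh_three 1) (by omega)]
  obtain ⟨r, rfl⟩ : ∃ r, s = r + 1 := ⟨s - 1, by omega⟩
  constructor
  · intro h
    have := lo_three' le_rfl (show 3 ≤ r by omega) (by omega) ((all_iff (r := r) (by omega)).2 h)
    rwa [show r - 1 + 1 = r + 1 - 1 by omega] at this
  · intro h
    exact (all_iff (by omega)).1 (h.mono fun n => Ram_sub (by omega) (fun _ _ _ _ => trivial))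

theorem three_lower_growth {s : ℕ} (hs : 4 ≤ s) :
    LowerGrowth (Ram (κ := Bool) (DepthThree 1) s) (s - 2) 2 := by
  obtain ⟨r, rfl⟩ : ∃ r, s = r + 1 := ⟨s - 1, by omega⟩
  have h := lo_three' (e := 2) (by norm_num) (show 3 ≤ r by omega) (by omega)
    (lo_all_two (r := r) (by omega))
  rw [show r - 2 + 1 = r + 1 - 2 by omega] at h
  exact h.lower fun n => le_Ram (by omega) (inh_three 1)

theorem three_four : LowerGrowth (Ram (κ := Bool × Bool) (DepthThree 2) 3) 2 1 := by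
  have h : Lo 1 2 (Ram (κ := Bool × Bool) (DepthThree 2) 3) := by
    refine lo_step (k := 1) (a := 1) (b := 1) le_rfl le_rfl le_rfl
      (fun n m hnm => Ram_mono (by omega) hnm) ?_ lo_two
    intro n hn
    rw [one_mul]
    exact (three_ineq_pair hn).le
  exact h.lower fun n => le_Ram (by omega) (inh_three 2)

end Pool.Agent.W2helper86.DT
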