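import Pool.Agent.W2helper86.DT.Upper
import Pool.Agent.W2helper86.DT.Lower

/-!
# Depth two and size `2 ^ ((log N) ^ (1 / 4))`
-/

set_option autoImplicit false

namespace Pool.Agent.W2helper86.DT

open Finset
open Pool.Agent.N584.TI (Arrow Ram)

/-- The colour is a function of `l` disjunctions of at most `2 ^ t` nonempty terms, where
`t ≤ (log₂ N) ^ (1 / 4)`. -/
def DepthTwoExp {κ : Type*} (l : ℕ) (r N : ℕ) (c : Finset ℕ → κ) : Prop :=
  ∃ t : ℕ, t ^ 4 ≤ Nat.log 2 N ∧ DepthTwo l (2 ^ t) 0 r N c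

theorem exp_upper {κ : Type*} {r l n : ℕ} (hr : 1 ≤ r) (hl : 1 ≤ l) :
    Arrow (κ := κ) (DepthTwoExp l) r n
      (2 ^ (384 * r ^ (r + 1) * l ^ 2 * (Nat.log 2 n + 1)) ^ 4) := by
  rintro c ⟨t, ht, hc⟩
  rw [Nat.log_pow (by norm_num)] at ht
  refine upper (s := 2 ^ t) (w := 0) hr hl ?_ c hc
  rw [Nat.log_pow (by norm_num)]
  set R := r ^ (r + 1) with hR
  set lam := Nat.log 2 n + 1 with hlam
  set B := 384 * R * l ^ 2 with hB
  have hR1 : 1 ≤ R := Nat.one_le_pow _ _ hr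
  have htB : t ≤ B * lam := by
    by_contra h
    have := Nat.pow_lt_pow_left (not_le.1 h) (show (4 : ℕ) ≠ 0 by norm_num)
    omega
  have hlog : Nat.log 2 (l * 2 ^ t) ≤ Nat.log 2 l + t := by
    have h1 : l * 2 ^ t < 2 ^ (Nat.log 2 l + t + 1) := by
      have h2 : l < 2 ^ (Nat.log 2 l + 1) := Nat.lt_pow_succ_log_self (by norm_num) l
      calc l * 2 ^ t < 2 ^ (Nat.log 2 l + 1) * 2 ^ t := Nat.mul_lt_mul_of_pos_right h2 (by positivity)
        _ = 2 ^ (Nat.log 2 l + t + 1) := by rw [← pow_add]; congr 1; ring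
    have := Nat.log_lt_of_lt_pow (by positivity) h1
    omega
  have hl2 : Nat.log 2 l + 1 ≤ B * lam := by
    have h1 : Nat.log 2 l ≤ l := Nat.log_le_self 2 l
    have h2 : l ≤ l ^ 2 := Nat.le_self_pow (by norm_num) l
    have h3 : l ^ 2 * 2 ≤ B := by
      rw [hB]
      nlinarith
    have h4 : B ≤ B * lam := Nat.le_mul_of_pos_right _ (by omega)
    omega
  set W := 0 + 2 * (Nat.log 2 (l * 2 ^ t) + 1) with hW
  have hWB : W ≤ 4 * (B * lam) := by omega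
  have hW1 : 1 ≤ W := by omega
  have h1 : 1 + (l - 1) * W ≤ l * W := by
    obtain ⟨l', rfl⟩ : ∃ l', l = l' + 1 := ⟨l - 1, by omega⟩
    rw [Nat.add_sub_cancel]
    nlinarith
  calc 6 * R * l * W ^ 2 * (1 + (l - 1) * W) * lam
      ≤ 6 * R * l * W ^ 2 * (l * W) * lam := by gcongr
    _ = 6 * R * l ^ 2 * lam * W ^ 3 := by ring
    _ ≤ 6 * R * l ^ 2 * lam * (4 * (B * lam)) ^ 3 := by gcongr
    _ = (384 * R * l ^ 2) * lam * (B * lam) ^ 3 := by ring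
    _ = (B * lam) ^ 4 := by rw [← hB]; ring

theorem exp_ram {κ : Type*} {r l n : ℕ} (hr : 1 ≤ r) (hl : 1 ≤ l) :
    Ram (κ := κ) (DepthTwoExp l) r n ≤
      2 ^ (384 * r ^ (r + 1) * l ^ 2 * (Nat.log 2 n + 1)) ^ 4 :=
  Nat.sInf_le (exp_upper hr hl)

end Pool.Agent.W2helper86.DT
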