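import Pool.Agent.W2helper86.DT.Defs
import Pool.Agent.N584.TI.Final

/-!
# The highest differing digit
-/

set_option autoImplicit false

namespace Pool.Agent.W2helper86.DT

open Finset
open Pool.Agent.N584.TI

/-- The position of the highest digit in which `a` and `b` differ. -/
def hd (a b : ℕ) : ℕ := Nat.log 2 (a ^^^ b)

theorem hd_eq {a b e : ℕ} (h1 : a.testBit e ≠ b.testBit e)
    (h2 : ∀ j, e < j → a.testBit j = b.testBit j) : hd a b = e := by
  unfold hd
  have h3 : (a ^^^ b).testBit e = true := by
    rw [Nat.testBit_xor]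
    revert h1
    cases a.testBit e <;> cases b.testBit e <;> simp
  have h4 : 2 ^ e ≤ a ^^^ b := Nat.ge_two_pow_of_testBit h3
  have h5 : a ^^^ b < 2 ^ (e + 1) := by
    apply Nat.lt_pow_two_of_testBit
    intro j hj
    rw [Nat.testBit_xor, h2 j (by omega)]
    simp
  exact Nat.log_eq_of_pow_le_of_lt_pow h4 h5

theorem hd_spec {a b : ℕ} (hab : a < b) : a.testBit (hd a b) = false ∧
    b.testBit (hd a b) = true ∧ ∀ j, hd a b < j → a.testBit j = b.testBit j := by
  have hne : a ^^^ b ≠ 0 := by
    intro h1
    rw [Nat.xor_eq_zero_iff] at h1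
    omega
  obtain ⟨e, he1, he2⟩ := Nat.exists_most_significant_bit hne
  rw [Nat.testBit_xor] at he1
  have he3 : ∀ j, e < j → a.testBit j = b.testBit j := by
    intro j hj
    have := he2 j hj
    rw [Nat.testBit_xor] at this
    revert this
    cases a.testBit j <;> cases b.testBit j <;> simp
  have hne' : a.testBit e ≠ b.testBit e := by
    intro h1
    rw [h1] at he1
    simp at he1
  have he : hd a b = e := hd_eq hne' he3
  rw [he]
  refine ⟨?_, ?_, he3⟩
  · by_contra h1
    have h1' : a.testBit e = true := by simpa using h1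
    have h2' : b.testBit e = false := by
      rw [h1'] at hne'
      cases hb : b.testBit e
      · rfl
      · rw [hb] at hne'; simp at hne'
    have := Nat.lt_of_testBit e h2' h1' fun j hj => (he3 j hj).symm
    omega
  · by_contra h1
    have h1' : b.testBit e = false := by simpa using h1
    have h2' : a.testBit e = true := by
      rw [h1'] at hne'
      simpa using hne'
    have := Nat.lt_of_testBit e h1' h2' fun j hj => (he3 j hj).symm
    omega

theorem hd_lt {a b m : ℕ} (hab : a < b) (hb : b < 2 ^ m) : hd a b < m := by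
  by_contra h
  have h1 := (hd_spec hab).2.1
  rw [Nat.testBit_lt_two_pow (hb.trans_le (Nat.pow_le_pow_right (by norm_num) (not_lt.1 h)))] at h1
  exact Bool.false_ne_true h1

theorem hd_mono {a b c d : ℕ} (h1 : a ≤ b) (h2 : b < c) (h3 : c ≤ d) : hd b c ≤ hd a d := by
  by_contra h
  push Not at h
  set e := hd b c with he
  have hagree : ∀ j, e ≤ j → a.testBit j = d.testBit j := fun j hj =>
    (hd_spec (show a < d by omega)).2.2 j (by omega)
  have hdiv : a / 2 ^ e = d / 2 ^ e := by
    apply Nat.eq_of_testBit_eq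
    intro j
    rw [Nat.testBit_div_two_pow, Nat.testBit_div_two_pow]
    exact hagree _ (by omega)
  have hb : a / 2 ^ e ≤ b / 2 ^ e := Nat.div_le_div_right h1
  have hc : b / 2 ^ e ≤ c / 2 ^ e := Nat.div_le_div_right h2.le
  have hd' : c / 2 ^ e ≤ d / 2 ^ e := Nat.div_le_div_right h3
  have hbc : b / 2 ^ e = c / 2 ^ e := by omega
  obtain ⟨s1, s2, -⟩ := hd_spec h2
  have e1 : b.testBit e = (b / 2 ^ e).testBit 0 := by
    rw [Nat.testBit_div_two_pow]
    simp
  have e2 : c.testBit e = (c / 2 ^ e).testBit 0 := by
    rw [Nat.testBit_div_two_pow]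
    simp
  rw [← he, e1, hbc, ← e2] at s1
  rw [← he, s1] at s2
  exact Bool.false_ne_true s2

theorem hd_ne {a b c : ℕ} (h1 : a < b) (h2 : b < c) : hd a b ≠ hd b c := by
  intro h
  have e1 := (hd_spec h1).2.1
  have e2 := (hd_spec h2).1
  rw [h, e2] at e1
  exact Bool.false_ne_true e1

theorem hd_max {a b c : ℕ} (h1 : a < b) (h2 : b < c) : hd a c = max (hd a b) (hd b c) := by
  obtain ⟨-, -, s1⟩ := hd_spec h1
  obtain ⟨-, -, s2⟩ := hd_spec h2
  have g1 := (hd_spec h1).1
  have g1' := (hd_spec h1).2.1
  have g2 := (hd_spec h2).1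
  have g2' := (hd_spec h2).2.1
  apply hd_eq
  · rcases lt_trichotomy (hd a b) (hd b c) with h | h | h
    · rw [max_eq_right h.le, s1 _ h, g2, g2']
      simp
    · exact absurd h (hd_ne h1 h2)
    · rw [max_eq_left h.le, ← s2 _ h, g1, g1']
      simp
  · intro j hj
    rw [s1 j ((le_max_left _ _).trans_lt hj), s2 j ((le_max_right _ _).trans_lt hj)]

/-- The scale function. -/
noncomputable def ρH (a b : ℕ) : ℝ := (hd a b : ℝ)

theorem isScale_ρH : IsScale ρH := by
  constructor
  · intro a b c d h1 h2 h3
    unfold ρH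
    exact_mod_cast hd_mono h1 h2 h3
  · intro a b c h1 h2
    unfold ρH
    have h3 : min (hd a b) (hd b c) + 1 ≤ hd a c := by
      rw [hd_max h1 h2]
      have := hd_ne h1 h2
      omega
    exact_mod_cast h3

/-- The highest differing digits of neighbours. -/
def hdv {k : ℕ} (x : Fin (k + 1) → ℕ) : Fin k → ℕ := fun t => hd (x t.castSucc) (x t.succ)

theorem hdv_congr {k : ℕ} {x y : Fin (k + 1) → ℕ} (hx : StrictMono x) (hy : StrictMono y)
    (h : hdv x = hdv y) : ∀ i j, i < j → hd (x i) (x j) = hd (y i) (y j) := by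
  have key : ∀ (d : ℕ) (i j : Fin (k + 1)), (j : ℕ) = i + d + 1 →
      hd (x i) (x j) = hd (y i) (y j) := by
    intro d
    induction d with
    | zero =>
      intro i j hij
      have hik : (i : ℕ) < k := by have := j.2; omega
      have e1 : i = (⟨i, hik⟩ : Fin k).castSucc := rfl
      have e2 : j = (⟨i, hik⟩ : Fin k).succ := by
        apply Fin.ext
        rw [Fin.val_succ]
        simpa using hij
      have := congrFun h ⟨i, hik⟩
      unfold hdv at this
      rw [← e1, ← e2] at this
      exact this
    | succ d ih =>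
      intro i j hij
      have hj : i + d + 1 < k + 1 := by have := j.2; omega
      set j' : Fin (k + 1) := ⟨i + d + 1, hj⟩ with hj'
      have h1 : i < j' := by rw [Fin.lt_def]; simp only [hj']; omega
      have h2 : j' < j := by rw [Fin.lt_def]; simp only [hj']; omega
      have h3 := ih i j' rfl
      have hik : ((j' : Fin (k + 1)) : ℕ) < k := by have := j.2; simp only [hj']; omega
      have e1 : j' = (⟨j', hik⟩ : Fin k).castSucc := rfl
      have e2 : j = (⟨j', hik⟩ : Fin k).succ := by
        apply Fin.ext
        rw [Fin.val_succ]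
        simp only [hj']
        omega
      have h4 : hd (x j') (x j) = hd (y j') (y j) := by
        have := congrFun h ⟨j', hik⟩
        unfold hdv at this
        rw [← e1, ← e2] at this
        exact this
      rw [hd_max (hx h1) (hx h2), hd_max (hy h1) (hy h2), h3, h4]
  intro i j hij
  have : (i : ℕ) < j := hij
  exact key ((j : ℕ) - i - 1) i j (by omega)

end Pool.Agent.W2helper86.DT
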