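import Pool.Agent.W2helper86.DT.Defs

/-!
# Fixing digits so that no wide terms are left
-/

set_option autoImplicit false

namespace Pool.Agent.W2helper86.DT

open Finset

variable {r : ℕ}

/-- The term is compatible with the values `b` of the digits outside of `F`. -/
def Alive (F : Finset ℕ) (b : ℕ → Bool) (T : Finset (Literal r)) : Prop :=
  ∀ p ∈ T, p.2.1 ∉ F → b p.2.1 = p.2.2

/-- The positions in `F` which occur in the term. -/
def free (F : Finset ℕ) (T : Finset (Literal r)) : Finset ℕ := positions T ∩ F

theorem free_mono {F F' : Finset ℕ} (h : F' ⊆ F) (T : Finset (Literal r)) :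
    free F' T ⊆ free F T := inter_subset_inter_left h

open Classical in
/-- The compatible terms with at least `t` free positions. -/
noncomputable def wide (A : Finset (Finset (Literal r))) (t : ℕ) (F : Finset ℕ) (b : ℕ → Bool) :
    Finset (Finset (Literal r)) :=
  A.filter fun T => Alive F b T ∧ t ≤ (free F T).card

theorem step (A : Finset (Finset (Literal r))) {u t : ℕ} (ht : 2 * u ≤ t) (F : Finset ℕ)
    (b : ℕ → Bool) (hF : F.Nonempty) :
    ∃ i ∈ F, ∃ β : Bool, F.card * (wide A t (F.erase i) (Function.update b i β)).card +
      u * (wide A t F b).card ≤ F.card * (wide A t F b).card := by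
  classical
  -- double counting
  have h1 : ∑ i ∈ F, ((wide A t F b).filter fun T => i ∈ positions T).card =
      ∑ T ∈ wide A t F b, (free F T).card := by
    have := sum_card_bipartiteAbove_eq_sum_card_bipartiteBelow
      (s := F) (t := wide A t F b) (fun (i : ℕ) (T : Finset (Literal r)) => i ∈ positions T)
    simp only [bipartiteAbove, bipartiteBelow] at this
    rw [this]
    refine sum_congr rfl fun T _ => ?_
    congr 1
    ext i
    simp only [free, mem_filter, mem_inter]
    tauto
  have h2 : ∑ i ∈ F, 2 * u * (wide A t F b).card ≤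
      ∑ i ∈ F, F.card * ((wide A t F b).filter fun T => i ∈ positions T).card := by
    rw [sum_const, smul_eq_mul, ← mul_sum, h1]
    apply Nat.mul_le_mul_left
    calc 2 * u * (wide A t F b).card ≤ t * (wide A t F b).card := Nat.mul_le_mul_right _ ht
      _ = ∑ T ∈ wide A t F b, t := by rw [sum_const, smul_eq_mul, mul_comm]
      _ ≤ _ := sum_le_sum fun T hT => (mem_filter.1 hT).2.2
  obtain ⟨i, hi, h3⟩ := exists_le_of_sum_le hF h2
  -- the terms with this position
  set Wi := (wide A t F b).filter fun T => i ∈ positions T with hWi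
  have h4 : ∃ β : Bool, Wi.card ≤ 2 * (Wi.filter fun T => ∃ p ∈ T, p.2.1 = i ∧ p.2.2 ≠ β).card := by
    by_contra hcon
    push Not at hcon
    have ht' := hcon true
    have hf' := hcon false
    have : Wi ⊆ (Wi.filter fun T => ∃ p ∈ T, p.2.1 = i ∧ p.2.2 ≠ true) ∪
        (Wi.filter fun T => ∃ p ∈ T, p.2.1 = i ∧ p.2.2 ≠ false) := by
      intro T hT
      have hp := (mem_filter.1 hT).2
      obtain ⟨p, hp, hpi⟩ := mem_image.1 hp
      rw [mem_union]
      rcases hb : p.2.2 with _ | _
      · left; exact mem_filter.2 ⟨hT, p, hp, hpi, by simp [hb]⟩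
      · right; exact mem_filter.2 ⟨hT, p, hp, hpi, by simp [hb]⟩
    have h5 := (card_le_card this).trans (card_union_le _ _)
    omega
  obtain ⟨β, hβ⟩ := h4
  refine ⟨i, hi, β, ?_⟩
  set K := Wi.filter fun T => ∃ p ∈ T, p.2.1 = i ∧ p.2.2 ≠ β with hK
  have hKW : K ⊆ wide A t F b := (filter_subset _ _).trans (filter_subset _ _)
  have h5 : wide A t (F.erase i) (Function.update b i β) ⊆ wide A t F b \ K := by
    intro T hT
    obtain ⟨hTA, hal, hw⟩ := mem_filter.1 hT
    rw [mem_sdiff]
    constructor
    · refine mem_filter.2 ⟨hTA, ?_, hw.trans (card_le_card (free_mono (erase_subset _ _) T))⟩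
      intro p hp hpF
      have h6 := hal p hp (fun h => hpF (mem_of_mem_erase h))
      rw [Function.update_of_ne] at h6
      · exact h6
      · rintro rfl
        exact hpF hi
    · intro hTK
      obtain ⟨-, p, hp, hpi, hpβ⟩ := mem_filter.1 hTK
      have h6 := hal p hp (by rw [hpi]; exact notMem_erase _ _)
      rw [hpi, Function.update_self] at h6
      exact hpβ h6.symm
  have h6 : (wide A t (F.erase i) (Function.update b i β)).card + K.card ≤
      (wide A t F b).card := by
    have := card_le_card h5
    rw [card_sdiff_of_subset hKW] at this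
    have h7 := card_le_card hKW
    omega
  have h7 : u * (wide A t F b).card ≤ F.card * K.card := by
    have h8 : F.card * Wi.card ≤ F.card * (2 * K.card) := Nat.mul_le_mul_left _ hβ
    have h9 : 2 * u * (wide A t F b).card ≤ F.card * Wi.card := h3
    nlinarith
  calc F.card * (wide A t (F.erase i) (Function.update b i β)).card + u * (wide A t F b).card
      ≤ F.card * (wide A t (F.erase i) (Function.update b i β)).card + F.card * K.card :=
        Nat.add_le_add_left h7 _
    _ = F.card * ((wide A t (F.erase i) (Function.update b i β)).card + K.card) := by ring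
    _ ≤ _ := Nat.mul_le_mul_left _ h6

theorem reduce (A : Finset (Finset (Literal r))) {u t : ℕ} (ht : 2 * u ≤ t) :
    ∀ (d : ℕ) (F : Finset ℕ) (b : ℕ → Bool), d ≤ F.card →
      ∃ F' ⊆ F, ∃ b' : ℕ → Bool, F'.card + d = F.card ∧ (∀ i, i ∉ F → b' i = b i) ∧
        (wide A t F' b').card * F.card.choose u ≤ (wide A t F b).card * F'.card.choose u := by
  intro d
  induction d with
  | zero =>
    intro F b _
    exact ⟨F, Subset.refl _, b, rfl, fun _ _ => rfl, le_rfl⟩
  | succ d ih =>
    intro F b hd
    have hF : F.Nonempty := card_pos.1 (by omega)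
    obtain ⟨i, hi, β, h⟩ := step A ht F b hF
    have hcard : (F.erase i).card = F.card - 1 := card_erase_of_mem hi
    obtain ⟨F', hF', b', h1, h2, h3⟩ := ih (F.erase i) (Function.update b i β) (by omega)
    refine ⟨F', hF'.trans (erase_subset _ _), b', by omega, ?_, ?_⟩
    · intro j hj
      rw [h2 j (fun h => hj (mem_of_mem_erase h)), Function.update_of_ne]
      rintro rfl
      exact hj hi
    · obtain ⟨j, hj⟩ : ∃ j, F.card = j + 1 := ⟨F.card - 1, by omega⟩
      rw [hcard, hj, Nat.add_sub_cancel] at h3
      rw [hj] at h ⊢
      set a := (wide A t F b).card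
      set a' := (wide A t (F.erase i) (Function.update b i β)).card
      set a'' := (wide A t F' b').card
      have hid := Nat.choose_mul_succ_eq j u
      -- a' * C(j+1,u) ≤ a * C(j,u)
      have h4 : a' * (j + 1).choose u ≤ a * j.choose u := by
        have h5 : (j + 1) * a' ≤ (j + 1 - u) * a := by
          rcases le_total u (j + 1) with hu | hu
          · rw [Nat.sub_mul]
            omega
          · have h6 : (j + 1) * a ≤ u * a := Nat.mul_le_mul_right _ hu
            have h7 : (j + 1) * a' = 0 := by omega
            rw [h7]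
            exact Nat.zero_le _
        have h6 : (j + 1) * (a' * (j + 1).choose u) ≤ (j + 1) * (a * j.choose u) := by
          calc (j + 1) * (a' * (j + 1).choose u) = ((j + 1) * a') * (j + 1).choose u := by ring
            _ ≤ ((j + 1 - u) * a) * (j + 1).choose u := Nat.mul_le_mul_right _ h5
            _ = a * ((j + 1).choose u * (j + 1 - u)) := by ring
            _ = a * (j.choose u * (j + 1)) := by rw [hid]
            _ = (j + 1) * (a * j.choose u) := by ring
        exact Nat.le_of_mul_le_mul_left h6 (Nat.succ_pos j)
      -- combine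
      rcases Nat.eq_zero_or_pos (j.choose u) with h0 | h0
      · have h8 : F'.card.choose u = 0 := by
          rw [Nat.choose_eq_zero_iff] at h0 ⊢
          have := card_le_card hF'
          omega
        -- then a' * C(j+1,u) = 0
        rw [h0, mul_zero, Nat.le_zero, mul_eq_zero] at h4
        rcases h4 with h4 | h4
        · have : wide A t F' b' ⊆ wide A t (F.erase i) (Function.update b i β) := by
            intro T hT
            classical
            obtain ⟨hTA, hal, hw⟩ := mem_filter.1 hT
            refine mem_filter.2 ⟨hTA, ?_, hw.trans (card_le_card (free_mono hF' T))⟩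
            intro p hp hpF
            rw [← h2 _ hpF]
            exact hal p hp (fun h => hpF (hF' h))
          have h9 : a'' ≤ a' := card_le_card this
          have : a'' = 0 := by omega
          rw [this, zero_mul]
          exact Nat.zero_le _
        · rw [h4, mul_zero]
          exact Nat.zero_le _
      · apply Nat.le_of_mul_le_mul_left _ h0
        calc j.choose u * (a'' * (j + 1).choose u) = (a'' * j.choose u) * (j + 1).choose u := by
              ring
          _ ≤ (a' * F'.card.choose u) * (j + 1).choose u := Nat.mul_le_mul_right _ h3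
          _ = (a' * (j + 1).choose u) * F'.card.choose u := by ring
          _ ≤ (a * j.choose u) * F'.card.choose u := Nat.mul_le_mul_right _ h4
          _ = j.choose u * (a * F'.card.choose u) := by ring

/-- `C(m, u) 2^u ≤ C(M, u)` for `2 m ≤ M`. -/
theorem choose_half (u : ℕ) : ∀ m M : ℕ, 2 * m ≤ M → m.choose u * 2 ^ u ≤ M.choose u := by
  induction u with
  | zero => intro m M _; simp
  | succ u ih =>
    intro m M h
    rcases Nat.lt_or_ge m (u + 1) with hm | hm
    · rw [Nat.choose_eq_zero_of_lt hm, zero_mul]
      exact Nat.zero_le _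
    · have e1 := Nat.choose_succ_right_eq m u
      have e2 := Nat.choose_succ_right_eq M u
      have h1 := ih m M h
      have h2 : 2 * (m - u) ≤ M - u := by omega
      apply Nat.le_of_mul_le_mul_left _ (Nat.succ_pos u)
      calc (u + 1) * (m.choose (u + 1) * 2 ^ (u + 1))
          = (m.choose (u + 1) * (u + 1)) * 2 ^ (u + 1) := by ring
        _ = (m.choose u * (m - u)) * 2 ^ (u + 1) := by rw [e1]
        _ = (m.choose u * 2 ^ u) * (2 * (m - u)) := by ring
        _ ≤ M.choose u * (M - u) := Nat.mul_le_mul h1 h2
        _ = M.choose (u + 1) * (u + 1) := e2.symm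
        _ = (u + 1) * M.choose (u + 1) := by ring

/-- After half of the digits have been fixed there are no wide terms. -/
theorem no_wide (A : Finset (Finset (Literal r))) {u t m' : ℕ} (ht : 2 * u ≤ t) (hu : 1 ≤ u)
    (F : Finset ℕ) (b : ℕ → Bool) (hm : 2 * m' ≤ F.card) (hA : (wide A t F b).card < 2 ^ u) :
    ∃ F' ⊆ F, ∃ b' : ℕ → Bool, F'.card = m' ∧ (∀ i, i ∉ F → b' i = b i) ∧
      wide A t F' b' = ∅ := by
  obtain ⟨F', hF', b', h1, h2, h3⟩ := reduce A ht (F.card - m') F b (by omega)
  have hc : F'.card = m' := by omega
  refine ⟨F', hF', b', hc, h2, ?_⟩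
  rw [hc] at h3
  have h4 := choose_half u m' F.card hm
  rcases Nat.eq_zero_or_pos (F.card.choose u) with h0 | h0
  · rw [Nat.choose_eq_zero_iff] at h0
    rw [eq_empty_iff_forall_notMem]
    intro T hT
    classical
    have h5 := (mem_filter.1 hT).2.2
    have h6 : (free F' T).card ≤ F'.card := card_le_card inter_subset_right
    have h7 := card_le_card hF'
    omega
  · rw [← card_eq_zero]
    by_contra h5
    have h6 : 1 ≤ (wide A t F' b').card := Nat.one_le_iff_ne_zero.2 h5
    have h7 : F.card.choose u * 2 ^ u ≤ (wide A t F b).card * F.card.choose u := by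
      calc F.card.choose u * 2 ^ u = 1 * F.card.choose u * 2 ^ u := by ring
        _ ≤ (wide A t F' b').card * F.card.choose u * 2 ^ u := by gcongr
        _ ≤ (wide A t F b).card * m'.choose u * 2 ^ u := Nat.mul_le_mul_right _ h3
        _ = (wide A t F b).card * (m'.choose u * 2 ^ u) := by ring
        _ ≤ _ := Nat.mul_le_mul_left _ h4
    have h8 : 2 ^ u ≤ (wide A t F b).card := by
      apply Nat.le_of_mul_le_mul_left _ h0
      rw [mul_comm (F.card.choose u) (wide A t F b).card]
      exact h7
    omega

end Pool.Agent.W2helper86.DT
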