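import Pool.Agent.W2helper86.DT.Reduce

/-!
# Constant disjunctions and disjunctions with many disjoint terms
-/

set_option autoImplicit false

namespace Pool.Agent.W2helper86.DT

open Finset

variable {r : ℕ}

theorem Alive.mono {F F' : Finset ℕ} {b : ℕ → Bool} {T : Finset (Literal r)}
    (h : Alive F' b T) (hF : F' ⊆ F) : Alive F b T := fun p hp hpF => h p hp fun h' => hpF (hF h')

/-- The disjunction is true, or false, or has `Q` compatible terms with disjoint free parts. -/
def Settled (Q : ℕ) (F : Finset ℕ) (b : ℕ → Bool) (D : Finset (Finset (Literal r))) : Prop :=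
  (∃ T ∈ D, Alive F b T ∧ free F T = ∅) ∨ (∀ T ∈ D, ¬ Alive F b T) ∨
    ∃ G ⊆ D, G.card = Q ∧ (∀ T ∈ G, Alive F b T) ∧
      (G : Set (Finset (Literal r))).PairwiseDisjoint (free F)

theorem hit {Q w : ℕ} {F : Finset ℕ} {b : ℕ → Bool} {D : Finset (Finset (Literal r))}
    (hw : ∀ T ∈ D, Alive F b T → (free F T).card ≤ w) (hD : ¬ Settled Q F b D) :
    ∃ H ⊆ F, H.card ≤ Q * w ∧
      ∀ T ∈ D, Alive (F \ H) b T → (free (F \ H) T).card + 1 ≤ w := by
  classical
  set P : Finset (Finset (Finset (Literal r))) := (D.filter fun T => Alive F b T).powerset.filter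
    fun G => (G : Set (Finset (Literal r))).PairwiseDisjoint (free F) with hP
  have hPne : P.Nonempty := ⟨∅, mem_filter.2 ⟨mem_powerset.2 (empty_subset _), by simp⟩⟩
  obtain ⟨G, hG, hmax⟩ := exists_max_image P card hPne
  obtain ⟨hG1, hG2⟩ := mem_filter.1 hG
  rw [mem_powerset] at hG1
  have hGD : G ⊆ D := hG1.trans (filter_subset _ _)
  have hGa : ∀ T ∈ G, Alive F b T := fun T hT => (mem_filter.1 (hG1 hT)).2
  have hcard : G.card < Q := by
    by_contra hcon
    obtain ⟨G', hG', hc⟩ := exists_subset_card_eq (not_lt.1 hcon)
    exact hD (Or.inr (Or.inr ⟨G', hG'.trans hGD, hc, fun T hT => hGa T (hG' hT),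
      hG2.subset (by exact_mod_cast hG')⟩))
  refine ⟨G.biUnion (free F), ?_, ?_, ?_⟩
  · intro i hi
    obtain ⟨T, -, hT⟩ := mem_biUnion.1 hi
    exact (mem_inter.1 hT).2
  · calc (G.biUnion (free F)).card ≤ ∑ T ∈ G, (free F T).card := card_biUnion_le
      _ ≤ ∑ T ∈ G, w := sum_le_sum fun T hT => hw T (hGD hT) (hGa T hT)
      _ = G.card * w := by rw [sum_const, smul_eq_mul]
      _ ≤ Q * w := Nat.mul_le_mul_right _ hcard.le
  · intro T hTD hTa
    have hTa' : Alive F b T := hTa.mono sdiff_subset
    have hne : free F T ≠ ∅ := fun h => hD (Or.inl ⟨T, hTD, hTa', h⟩)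
    have hmeet : ¬ Disjoint (free F T) (G.biUnion (free F)) := by
      intro hdis
      have hTG : T ∉ G := by
        intro hTG
        apply hne
        rw [← bot_eq_empty, ← disjoint_self]
        exact hdis.mono_right (subset_biUnion_of_mem _ hTG)
      have hins : insert T G ∈ P := by
        refine mem_filter.2 ⟨mem_powerset.2 ?_, ?_⟩
        · exact insert_subset (mem_filter.2 ⟨hTD, hTa'⟩) hG1
        · rw [coe_insert]
          refine hG2.insert ?_
          intro T' hT' _
          exact hdis.mono_right (subset_biUnion_of_mem _ (by exact_mod_cast hT'))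
      have := hmax _ hins
      rw [card_insert_of_notMem hTG] at this
      omega
    rw [not_disjoint_iff] at hmeet
    obtain ⟨i, hi1, hi2⟩ := hmeet
    have hlt : free (F \ G.biUnion (free F)) T ⊂ free F T := by
      rw [ssubset_iff_of_subset (free_mono sdiff_subset T)]
      refine ⟨i, hi1, fun h => ?_⟩
      exact (mem_sdiff.1 (mem_inter.1 h).2).2 hi2
    have := card_lt_card hlt
    have := hw T hTD hTa'
    omega

theorem settle {l : ℕ} (D : Fin l → Finset (Finset (Literal r))) (Q W : ℕ) (b : ℕ → Bool) :
    ∀ (S : ℕ) (F : Finset ℕ) (w : Fin l → ℕ), ∑ k, w k = S → (∀ k, w k ≤ W) →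
      (∀ k, ∀ T ∈ D k, Alive F b T → (free F T).card ≤ w k) →
      ∃ F' ⊆ F, F.card ≤ F'.card + S * (Q * W) ∧ ∀ k, Settled Q F' b (D k) := by
  classical
  intro S
  induction S with
  | zero =>
    intro F w hS _ hw
    refine ⟨F, Subset.refl _, by omega, fun k => ?_⟩
    have h0 : w k = 0 := by
      have := single_le_sum (f := w) (fun i _ => Nat.zero_le _) (mem_univ k)
      omega
    by_cases hk : ∃ T ∈ D k, Alive F b T
    · obtain ⟨T, hT, hTa⟩ := hk
      left
      refine ⟨T, hT, hTa, ?_⟩
      have := hw k T hT hTa
      rw [h0, Nat.le_zero, card_eq_zero] at this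
      exact this
    · right; left
      intro T hT hTa
      exact hk ⟨T, hT, hTa⟩
  | succ S ih =>
    intro F w hS hW hw
    by_cases hall : ∀ k, Settled Q F b (D k)
    · exact ⟨F, Subset.refl _, by omega, hall⟩
    · push Not at hall
      obtain ⟨k, hk⟩ := hall
      obtain ⟨H, hH, hHc, hHw⟩ := hit (hw k) hk
      have hwk : 1 ≤ w k := by
        by_contra h0
        have h0 : w k = 0 := by omega
        apply hk
        by_cases hk' : ∃ T ∈ D k, Alive F b T
        · obtain ⟨T, hT, hTa⟩ := hk'
          left
          refine ⟨T, hT, hTa, ?_⟩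
          have := hw k T hT hTa
          rw [h0, Nat.le_zero, card_eq_zero] at this
          exact this
        · right; left
          intro T hT hTa
          exact hk' ⟨T, hT, hTa⟩
      have hsum : ∑ j, Function.update w k (w k - 1) j = S := by
        have h1 := sum_update_of_mem (mem_univ k) w (w k - 1)
        have h2 := add_sum_erase univ w (mem_univ k)
        rw [sdiff_singleton_eq_erase] at h1
        rw [h1]
        omega
      obtain ⟨F', hF', hF'c, hF's⟩ := ih (F \ H) (Function.update w k (w k - 1)) hsum
        (fun j => by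
          rcases eq_or_ne j k with rfl | hj
          · rw [Function.update_self]
            have := hW j
            omega
          · rw [Function.update_of_ne hj]
            exact hW j)
        (fun j T hT hTa => by
          rcases eq_or_ne j k with rfl | hj
          · rw [Function.update_self]
            have := hHw T hT hTa
            omega
          · rw [Function.update_of_ne hj]
            exact (card_le_card (free_mono sdiff_subset T)).trans
              (hw j T hT (hTa.mono sdiff_subset)))
      refine ⟨F', hF'.trans sdiff_subset, ?_, hF's⟩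
      rw [card_sdiff_of_subset hH] at hF'c
      have h3 : Q * w k ≤ Q * W := Nat.mul_le_mul_left _ (hW k)
      have h4 : (S + 1) * (Q * W) = S * (Q * W) + Q * W := by ring
      rw [h4]
      omega

/-- Choice of disjoint terms. -/
theorem choose_terms {l : ℕ} (D : Fin l → Finset (Finset (Literal r))) {Q W h k₀ : ℕ}
    (b : ℕ → Bool) (F K : Finset ℕ) (hK : K.card ≤ k₀)
    (hQ : k₀ + h + (l - 1) * (h * W) ≤ Q)
    (hW : ∀ k, ∀ T ∈ D k, Alive F b T → (free F T).card ≤ W) (act : Finset (Fin l))
    (hact : ∀ k ∈ act, ∃ G ⊆ D k, G.card = Q ∧ (∀ T ∈ G, Alive F b T) ∧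
      (G : Set (Finset (Literal r))).PairwiseDisjoint (free F)) :
    ∃ T : Fin l → ℕ → Finset (Literal r),
      (∀ k ∈ act, ∀ q < h, T k q ∈ D k ∧ Alive F b (T k q) ∧ Disjoint (free F (T k q)) K) ∧
      ∀ k ∈ act, ∀ k' ∈ act, ∀ q < h, ∀ q' < h, (k, q) ≠ (k', q') →
        Disjoint (free F (T k q)) (free F (T k' q')) := by
  classical
  induction act using Finset.induction_on with
  | empty => exact ⟨fun _ _ => ∅, by simp, by simp⟩
  | insert k act hk ih =>
    obtain ⟨T, hT1, hT2⟩ := ih fun j hj => hact j (mem_insert_of_mem hj)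
    obtain ⟨G, hGD, hGc, hGa, hGd⟩ := hact k (mem_insert_self _ _)
    set U : Finset ℕ := K ∪ act.biUnion fun j => (range h).biUnion fun q => free F (T j q) with hU
    have hUc : U.card ≤ k₀ + (l - 1) * (h * W) := by
      have h1 : act.card ≤ l - 1 := by
        have h2 : (insert k act).card ≤ (univ : Finset (Fin l)).card := card_le_card (subset_univ _)
        rw [card_insert_of_notMem hk, card_univ, Fintype.card_fin] at h2
        omega
      calc U.card ≤ K.card + (act.biUnion fun j => (range h).biUnion fun q => free F (T j q)).card :=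
            card_union_le _ _
        _ ≤ k₀ + (l - 1) * (h * W) := by
            apply Nat.add_le_add hK
            calc (act.biUnion fun j => (range h).biUnion fun q => free F (T j q)).card
                ≤ ∑ j ∈ act, ((range h).biUnion fun q => free F (T j q)).card := card_biUnion_le
              _ ≤ ∑ j ∈ act, h * W := by
                  apply sum_le_sum
                  intro j hj
                  calc ((range h).biUnion fun q => free F (T j q)).card
                      ≤ ∑ q ∈ range h, (free F (T j q)).card := card_biUnion_le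
                    _ ≤ ∑ q ∈ range h, W := by
                        apply sum_le_sum
                        intro q hq
                        have := hT1 j hj q (mem_range.1 hq)
                        exact hW j _ this.1 this.2.1
                    _ = h * W := by rw [sum_const, card_range, smul_eq_mul]
              _ = act.card * (h * W) := by rw [sum_const, smul_eq_mul]
              _ ≤ _ := Nat.mul_le_mul_right _ h1
    set B := G.filter fun T' => ¬ Disjoint (free F T') U with hB
    have hBc : B.card ≤ U.card := by
      have hex : ∀ T' ∈ B, ∃ i, i ∈ free F T' ∧ i ∈ U := fun T' hT' =>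
        not_disjoint_iff.1 (mem_filter.1 hT').2
      choose! f hf1 hf2 using hex
      apply card_le_card_of_injOn f (fun T' hT' => hf2 T' hT')
      intro T₁ h₁ T₂ h₂ he
      by_contra hne
      have h₁' : T₁ ∈ B := by exact_mod_cast h₁
      have h₂' : T₂ ∈ B := by exact_mod_cast h₂
      have hd := hGd (show T₁ ∈ (G : Set _) by exact_mod_cast (mem_filter.1 h₁').1)
        (show T₂ ∈ (G : Set _) by exact_mod_cast (mem_filter.1 h₂').1) hne
      rw [Function.onFun, disjoint_left] at hd
      exact hd (hf1 T₁ h₁') (by rw [he]; exact hf1 T₂ h₂')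
    have hgood : h ≤ (G \ B).card := by
      rw [card_sdiff_of_subset (show B ⊆ G from filter_subset _ _)]
      omega
    obtain ⟨G', hG', hG'c⟩ := exists_subset_card_eq hgood
    have hG'G : G' ⊆ G := hG'.trans sdiff_subset
    set e : Fin h ≃ G' := (finCongr hG'c.symm).trans G'.equivFin.symm with he
    have hG'U : ∀ T' ∈ G', Disjoint (free F T') U := by
      intro T' hT'
      by_contra hcon
      exact (mem_sdiff.1 (hG' hT')).2 (mem_filter.2 ⟨hG'G hT', hcon⟩)
    set T' : Fin l → ℕ → Finset (Literal r) := fun j q =>
      if j = k then (if hq : q < h then (e ⟨q, hq⟩ : Finset (Literal r)) else ∅) else T j q with hT'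
    have hTk : ∀ q (hq : q < h), T' k q = (e ⟨q, hq⟩ : Finset (Literal r)) := by
      intro q hq
      simp only [hT', if_true, dif_pos hq]
    have hTj : ∀ j ∈ act, ∀ q, T' j q = T j q := by
      intro j hj q
      have : j ≠ k := by rintro rfl; exact hk hj
      simp only [hT', if_neg this]
    have hUj : ∀ j ∈ act, ∀ q < h, free F (T j q) ⊆ U := by
      intro j hj q hq i hi
      rw [hU, mem_union]
      right
      rw [mem_biUnion]
      exact ⟨j, hj, mem_biUnion.2 ⟨q, mem_range.2 hq, hi⟩⟩
    refine ⟨T', ?_, ?_⟩
    · intro j hj q hq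
      rcases mem_insert.1 hj with rfl | hj
      · rw [hTk q hq]
        have hm := (e ⟨q, hq⟩).2
        refine ⟨hGD (hG'G hm), hGa _ (hG'G hm), ?_⟩
        exact (hG'U _ hm).mono_right subset_union_left
      · rw [hTj j hj]
        exact hT1 j hj q hq
    · intro j hj j' hj' q hq q' hq' hne
      rcases mem_insert.1 hj with e1 | h1
      · rcases mem_insert.1 hj' with e2 | h2
        · rw [e1, e2, hTk q hq, hTk q' hq']
          have hqq : q ≠ q' := by
            intro hqq
            exact hne (by rw [e1, e2, hqq])
          have hee : (e ⟨q, hq⟩ : Finset (Literal r)) ≠ (e ⟨q', hq'⟩ : Finset (Literal r)) := by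
            intro h1
            have h2 := e.injective (Subtype.ext h1)
            rw [Fin.mk.injEq] at h2
            exact hqq h2
          exact hGd (by exact_mod_cast hG'G (e ⟨q, hq⟩).2)
            (by exact_mod_cast hG'G (e ⟨q', hq'⟩).2) hee
        · rw [e1, hTk q hq, hTj j' h2]
          exact (hG'U _ (e ⟨q, hq⟩).2).mono_right (hUj j' h2 q' hq')
      · rcases mem_insert.1 hj' with e2 | h2
        · rw [e2, hTk q' hq', hTj j h1]
          exact ((hG'U _ (e ⟨q', hq'⟩).2).mono_right (hUj j h1 q hq)).symm
        · rw [hTj j h1, hTj j' h2]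
          exact hT2 j h1 j' h2 q hq q' hq' hne

end Pool.Agent.W2helper86.DT
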