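import Pool.Agent.W2helper86.DT.Build
import Pool.Agent.N584.TI.Final

/-!
# Depth two: large homogeneous sets
-/

set_option autoImplicit false

namespace Pool.Agent.W2helper86.DT

open Finset
open Pool.Agent.N584.TI (Arrow Ram)

theorem TermTrue.consistent {r : ℕ} {x : Fin r → ℕ} {T : Finset (Literal r)} (h : TermTrue x T) :
    Consistent T := by
  intro c i h1 h2
  have e1 := h _ h1
  have e2 := h _ h2
  unfold LitTrue at e1 e2
  simp only at e1 e2
  rw [e1] at e2
  exact absurd e2 (by simp)

theorem numeric {r l W m lam : ℕ} (hr : 1 ≤ r) (hl : 1 ≤ l) (hW : 1 ≤ W)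
    (h : 6 * r ^ (r + 1) * l * W ^ 2 * (1 + (l - 1) * W) * lam ≤ m) :
    lam + l * W * ((lam + r ^ (r + 1) * lam + (l - 1) * (r ^ (r + 1) * lam * W)) * W) ≤ m / 2 := by
  have hR : 1 ≤ r ^ (r + 1) := Nat.one_le_pow _ _ hr
  obtain ⟨l', rfl⟩ : ∃ l', l = l' + 1 := ⟨l - 1, by omega⟩
  rw [Nat.add_sub_cancel] at h ⊢
  set R := r ^ (r + 1) with hRdef
  rw [Nat.le_div_iff_mul_le (by norm_num)]
  refine le_trans ?_ h
  have h1 : lam ≤ R * lam := Nat.le_mul_of_pos_left _ hR
  have h2 : lam + R * lam + l' * (R * lam * W) ≤ 2 * (R * lam) * (1 + l' * W) := by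
    have : 2 * (R * lam) * (1 + l' * W) = 2 * (R * lam) + 2 * (l' * (R * lam * W)) := by ring
    rw [this]
    have h3 : 0 ≤ l' * (R * lam * W) := Nat.zero_le _
    omega
  have h3 : (l' + 1) * W * ((lam + R * lam + l' * (R * lam * W)) * W) ≤
      (l' + 1) * W * ((2 * (R * lam) * (1 + l' * W)) * W) :=
    Nat.mul_le_mul_left _ (Nat.mul_le_mul_right _ h2)
  have h4 : (l' + 1) * W * ((2 * (R * lam) * (1 + l' * W)) * W) =
      2 * (R * (l' + 1) * W ^ 2 * (1 + l' * W) * lam) := by ring
  have h5 : lam ≤ R * (l' + 1) * W ^ 2 * (1 + l' * W) * lam := by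
    apply Nat.le_mul_of_pos_left
    positivity
  have h6 : 6 * R * (l' + 1) * W ^ 2 * (1 + l' * W) * lam =
      6 * (R * (l' + 1) * W ^ 2 * (1 + l' * W) * lam) := by ring
  rw [h6]
  omega

/-- The main theorem for depth two. -/
theorem upper {κ : Type*} {l s w r n N : ℕ} (hr : 1 ≤ r) (hl : 1 ≤ l)
    (h : 6 * r ^ (r + 1) * l * (w + 2 * (Nat.log 2 (l * s) + 1)) ^ 2 *
      (1 + (l - 1) * (w + 2 * (Nat.log 2 (l * s) + 1))) * (Nat.log 2 n + 1) ≤ Nat.log 2 N) :
    Arrow (κ := κ) (DepthTwo l s w) r n N := by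
  classical
  rintro c ⟨D, g, hD, hc⟩
  set u := Nat.log 2 (l * s) + 1 with hu
  set W := w + 2 * u with hW
  set m := Nat.log 2 N with hm
  have hnum := numeric hr hl (show 1 ≤ W by omega) h
  have hmpos : 0 < m := by
    rcases Nat.eq_zero_or_pos m with h0 | h0
    · rw [h0] at hnum
      simp at hnum
    · exact h0
  have hN : 2 ^ m ≤ N := by
    apply Nat.pow_log_le_self
    intro h0
    rw [hm, h0] at hmpos
    simp at hmpos
  -- consistent terms only
  set D' : Fin l → Finset (Finset (Literal r)) := fun k => (D k).filter fun T => Consistent T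
    with hD'
  have hDD' : ∀ (x : Fin r → ℕ) k, (∃ T ∈ D k, TermTrue x T) ↔ ∃ T ∈ D' k, TermTrue x T := by
    intro x k
    constructor
    · rintro ⟨T, hT, hx⟩
      exact ⟨T, mem_filter.2 ⟨hT, hx.consistent⟩, hx⟩
    · rintro ⟨T, hT, hx⟩
      exact ⟨T, (mem_filter.1 hT).1, hx⟩
  -- the wide terms
  set A : Finset (Finset (Literal r)) := univ.biUnion fun k =>
    (D' k).filter fun T => w < (positions T).card with hA
  have hAc : A.card ≤ l * s := by
    calc A.card ≤ ∑ k : Fin l, ((D' k).filter fun T => w < (positions T).card).card :=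
          card_biUnion_le
      _ ≤ ∑ k : Fin l, s := by
          apply sum_le_sum
          intro k _
          refine (card_le_card ?_).trans (hD k)
          intro T hT
          obtain ⟨h1, h2⟩ := mem_filter.1 hT
          exact mem_filter.2 ⟨(mem_filter.1 h1).1, h2⟩
      _ = l * s := by simp
  have hwide : (wide A W (range m) fun _ => false).card < 2 ^ u := by
    calc (wide A W (range m) fun _ => false).card ≤ A.card := card_filter_le _ _
      _ ≤ l * s := hAc
      _ < 2 ^ u := Nat.lt_pow_succ_log_self (by norm_num) _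
  obtain ⟨F, hF, b, hFc, hb, hempty⟩ := no_wide A (t := W) (u := u) (m' := m / 2) (by omega)
    (by omega) (range m) (fun _ => false) (by rw [card_range]; omega) hwide
  have hwd : ∀ k, ∀ T ∈ D' k, Alive F b T → (free F T).card ≤ W := by
    intro k T hT hTa
    have h1 : (free F T).card ≤ (positions T).card := card_le_card inter_subset_left
    by_cases h2 : w < (positions T).card
    · by_contra h3
      have h4 : T ∈ wide A W F b := by
        refine mem_filter.2 ⟨mem_biUnion.2 ⟨k, mem_univ _, mem_filter.2 ⟨hT, h2⟩⟩, hTa, ?_⟩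
        omega
      rw [hempty] at h4
      exact notMem_empty _ h4
    · omega
  set lam := Nat.log 2 n + 1 with hlam
  set hh := r ^ (r + 1) * lam with hhh
  set Q := lam + hh + (l - 1) * (hh * W) with hQ
  obtain ⟨F', hF', hF'c, hset⟩ := settle D' Q W b (l * W) F (fun _ => W) (by simp)
    (fun _ => le_rfl) hwd
  have hb' : ∀ i, m ≤ i → b i = false := fun i hi => hb i (by simp [hi])
  obtain ⟨κ', hκ'⟩ := hash (n := n) hr
  obtain ⟨v, hv, hvm, hvt⟩ := assemble (k₀ := lam) (h := hh) (Q := Q) (W := W) D'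
    (fun k T hT => (mem_filter.1 hT).2) F' (hF'.trans hF) b hb'
    (Nat.lt_pow_succ_log_self (by norm_num) n).le
    (by
      rw [hFc] at hF'c
      have h1 : l * W * (Q * W) + lam ≤ m / 2 := by
        rw [add_comm]
        exact hnum
      omega) κ' hκ' le_rfl
    (fun k T hT hTa => (card_le_card (free_mono hF' T)).trans (hwd k T hT (hTa.mono hF'))) hset
  refine ⟨univ.image v, ?_, ?_, g (fun k => ∃ T ∈ D' k, Alive F' b T), ?_⟩
  · intro x hx
    obtain ⟨t, -, rfl⟩ := mem_image.1 hx
    exact mem_range.2 ((hvm t).trans_le hN)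
  · rw [card_image_of_injective _ hv.injective, card_univ, Fintype.card_fin]
  · intro S hS hSr
    set x := S.orderEmbOfFin hSr with hx
    have hxS : ∀ i, x i ∈ S := fun i => orderEmbOfFin_mem _ _ _
    have hxv : ∀ i, ∃ t, v t = x i := by
      intro i
      obtain ⟨t, -, ht⟩ := mem_image.1 (hS (hxS i))
      exact ⟨t, ht⟩
    choose a ha using hxv
    have hax : (fun i => v (a i)) = x := funext ha
    have hxm : StrictMono (x : Fin r → ℕ) := x.strictMono
    have ham : StrictMono a := by
      intro i j hij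
      rw [← hv.lt_iff_lt, ha, ha]
      exact hxm hij
    have h1 : univ.image (x : Fin r → ℕ) = S := Pool.Agent.N584.TI.univ_image_orderEmb S hSr
    rw [← h1, hc _ hxm (fun i => mem_range.1 ?_)]
    · congr 1
      funext k
      rw [hDD', ← hvt a ham k, hax]
    · obtain ⟨t, -, ht⟩ := mem_image.1 (hS (hxS i))
      rw [← ht]
      exact mem_range.2 ((hvm t).trans_le hN)

end Pool.Agent.W2helper86.DT
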